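import Pool.Agent.helper88.RQ2.Spec

/-!
Row GRA: the rank of a finite nonempty set of points is the dimension of its affine hull plus one.
-/

open Set Matroid RadonMin

namespace RadonQ2

lemma GRA_insert {V : Type} [AddCommGroup V] [Module ℝ V] [DecidableEq V] (I : Finset V) (x : V)
    (hI : AffineIndependent ℝ (fun y : I => (y : V))) (hx : x ∉ affineSpan ℝ (I : Set V)) :
    AffineIndependent ℝ (fun y : (insert x I : Finset V) => (y : V)) := by
  classical
  have hxI : x ∉ I := fun h => hx (subset_affineSpan ℝ _ (by exact_mod_cast h))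
  let i : (insert x I : Finset V) := ⟨x, Finset.mem_insert_self _ _⟩
  have hmem : ∀ y : (insert x I : Finset V), y ≠ i → (y : V) ∈ I := by
    intro y hy
    rcases Finset.mem_insert.mp y.2 with h | h
    · exact absurd (Subtype.ext h) hy
    · exact h
  apply AffineIndependent.affineIndependent_of_notMem_span (i := i)
  · let e : {y : (insert x I : Finset V) // y ≠ i} ↪ I :=
      ⟨fun y => ⟨((y : (insert x I : Finset V)) : V), hmem y.1 y.2⟩, by
        intro y z hyz
        apply Subtype.ext
        apply Subtype.ext
        simpa using hyz⟩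
    exact hI.comp_embedding e
  · have h1 : (fun y : (insert x I : Finset V) => (y : V)) '' {y | y ≠ i} = (I : Set V) := by
      ext z
      constructor
      · rintro ⟨y, hy, rfl⟩
        exact hmem y hy
      · intro hz
        have hz' : z ∈ I := by exact_mod_cast hz
        refine ⟨⟨z, Finset.mem_insert_of_mem hz'⟩, ?_, rfl⟩
        intro h
        have h2 : z = x := congrArg Subtype.val h
        exact hxI (h2 ▸ hz')
    rw [h1]
    exact hx

theorem GRA_proof (hGAI : GAI_stmt) : GRA_stmt := by
  intro V _ _ _ X hX
  obtain ⟨I, hI⟩ := (affMat X).exists_isBasis (X : Set V)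
  have hr : ra X = I.ncard := rk_eq_ncard_of_isBasis hI
  have hIX : I ⊆ (X : Set V) := hI.subset
  have hfin : I.Finite := (Finset.finite_toSet X).subset hIX
  obtain ⟨I', rfl⟩ : ∃ I' : Finset V, (I' : Set V) = I := ⟨hfin.toFinset, by simp⟩
  rw [hr, ncard_coe_finset]
  have hI2 := ((affMat_indep X I').mp hI.indep).2
  have hAI := (hGAI V I').mp hI2
  have hspan : ∀ x ∈ X, x ∈ affineSpan ℝ (I' : Set V) := by
    intro x hx
    by_contra hcon
    have h1 := GRA_insert I' x hAI hcon
    have h2 := (hGAI V (insert x I')).mpr h1
    have h3 : (affMat X).Indep ((insert x I' : Finset V) : Set V) :=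
      (affMat_indep X _).mpr ⟨Finset.insert_subset hx (by exact_mod_cast hIX), h2⟩
    have h4 := hI.eq_of_subset_indep h3 (by simp)
      (by
        rw [Finset.coe_insert]
        exact Set.insert_subset (by exact_mod_cast hx) hIX)
    have h5 : x ∈ (I' : Set V) := by rw [h4]; simp
    exact hcon (subset_affineSpan ℝ _ h5)
  have hne : I'.Nonempty := by
    obtain ⟨x, hx⟩ := hX
    have h := hspan x hx
    by_contra hcon
    rw [Finset.not_nonempty_iff_eq_empty] at hcon
    rw [hcon, Finset.coe_empty, AffineSubspace.span_empty] at h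
    exact AffineSubspace.notMem_bot ℝ V x h
  have hvs : vectorSpan ℝ (X : Set V) = vectorSpan ℝ (I' : Set V) := by
    have h1 : affineSpan ℝ (X : Set V) = affineSpan ℝ (I' : Set V) :=
      le_antisymm (affineSpan_le.mpr (fun x hx => hspan x (by exact_mod_cast hx)))
        (affineSpan_mono ℝ hIX)
    rw [← direction_affineSpan, ← direction_affineSpan, h1]
  rw [hvs]
  have hpos : 1 ≤ I'.card := Finset.card_pos.mpr hne
  have hc : Fintype.card I' = (I'.card - 1) + 1 := by
    rw [Fintype.card_coe]; omega
  have h6 := hAI.finrank_vectorSpan hc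
  have h7 : Set.range (fun y : I' => (y : V)) = (I' : Set V) := by
    ext z; simp
  rw [h7] at h6
  rw [h6]
  omega

end RadonQ2
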